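import Pool.Agent.D0H69.L0F.Lim
import Pool.Agent.D0H10.KH.End

/-!
# Projects FF, L3, L9, L0: the final statement over `ℚ(√-3)`, all cube-free `D`

The last class (`D ^ 2 = 1` modulo `√-3 ^ 3`) of the projects FF, L3, L9 (see
`Pool/Agent/D0H10/KH/End.lean`), project L0: analytic part helper69 with the combinatorics and the
distribution relations of helper2, local condition helper92, descent helper15, converse helper42,
density and assembly helper69.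
-/

set_option autoImplicit false
set_option linter.unusedVariables false
set_option linter.unusedSectionVars false

open scoped Classical

namespace Pool.Agent.D0H69.L0F

open NumberField Filter Topology
open Pool.Agent.Y692.QS (Ei w nr toC nr_mul)
open Pool.Agent.Y703.CT
open Pool.Agent.Y703.XK (c9)
open Pool.Agent.Y715.T.Gi (lam prime_lam lam_sq)
open Pool.Agent.Y696.CTK (Tri ED)
open Pool.Agent.Y696.XK (RkZ img_ncard)
open Pool.Agent.N883.FF (fam_data FamE pB)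
open Pool.Agent.D0H10.KH

/-- the facts for all cube-free `D` -/
theorem factsAll {K : Type} [Field K] [NumberField K] (j : Ei ≃+* 𝓞 K)
    [IsCyclotomicExtension {3} ℚ K] (hj : ∀ z : Ei, Algebra.norm ℤ (j z) = nr z)
    {D : 𝓞 K} (hD : FamH D) : FactsH D := by
  by_cases hx : ExcH D
  · obtain ⟨D, rfl⟩ := j.surjective D
    obtain ⟨b, a, z, ha, hz, rfl⟩ := dec ((famH_iff j D).1 hD)
    rw [excH_iff] at hx
    by_cases ha0 : a = 0
    · subst ha0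
      rw [exc_iff hz b] at hx
      obtain ⟨i, n, π, e, hdt, rfl⟩ := fam_data hz
      obtain ⟨rfl, hn⟩ := exc_data hdt hx
      exact factsM j hdt hn b
    · exact absurd hx (exc_no b ha0 z)
  · exact factsH j hj hD hx

/-- **The final statement.** -/
theorem finalAll (K : Type) [Field K] [NumberField K] [IsCyclotomicExtension {3} ℚ K] :
    (∃ c : ℝ, 0 < c ∧ ∃ X₀ : ℕ, ∀ X : ℕ, X₀ ≤ X →
      c * X ≤ ({D : 𝓞 K | Algebra.norm ℤ D ≤ X ∧ FamH D}.ncard : ℝ)) ∧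
    (∀ D : 𝓞 K, FamH D → FactsH D) ∧
    Tendsto (fun X : ℕ =>
      ({D : 𝓞 K | Algebra.norm ℤ D ≤ X ∧ FamH D ∧ Tri D}.ncard : ℝ) /
        ({D : 𝓞 K | Algebra.norm ℤ D ≤ X ∧ FamH D}.ncard : ℝ)) atTop
      (nhds (∏' i : ℕ, (1 - (1 / 3 : ℝ) ^ (2 * i + 1)))) ∧
    (∀ a : ℕ, a < 3 → Tendsto (fun X : ℕ =>
      ({D : 𝓞 K | Algebra.norm ℤ D ≤ X ∧ FamH D ∧ ExtH a D ∧ Tri D}.ncard : ℝ) /
        ({D : 𝓞 K | Algebra.norm ℤ D ≤ X ∧ FamH D ∧ ExtH a D}.ncard : ℝ)) atTop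
      (nhds (∏' i : ℕ, (1 - (1 / 3 : ℝ) ^ (2 * i + 1))))) ∧
    Tendsto (fun X : ℕ =>
      ({D : 𝓞 K | Algebra.norm ℤ D ≤ X ∧ FamH D ∧ ExcH D ∧ Tri D}.ncard : ℝ) /
        ({D : 𝓞 K | Algebra.norm ℤ D ≤ X ∧ FamH D ∧ ExcH D}.ncard : ℝ)) atTop
      (nhds (∏' i : ℕ, (1 - (1 / 3 : ℝ) ^ (2 * i + 1)))) ∧
    (0.639 : ℝ) < ∏' i : ℕ, (1 - (1 / 3 : ℝ) ^ (2 * i + 1)) := by
  obtain ⟨⟨j, hj⟩, -⟩ := Pool.Agent.Y455.CTK.jex K
  have e2 : ∀ X : ℕ, {D : 𝓞 K | Algebra.norm ℤ D ≤ X ∧ FamH D}.ncard =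
      {D : Ei | nr D ≤ X ∧ CFam D}.ncard := fun X =>
    img_ncard j hj X CFam FamH fun D => (famH_iff j D).symm
  have e1 : ∀ X : ℕ, {D : 𝓞 K | Algebra.norm ℤ D ≤ X ∧ FamH D ∧ Tri D}.ncard =
      {D : Ei | nr D ≤ X ∧ CFam D ∧ Tri (j D)}.ncard := fun X =>
    img_ncard j hj X (fun D => CFam D ∧ Tri (j D))
      (fun D => FamH D ∧ Tri D)
      fun D => and_congr (famH_iff j D).symm Iff.rfl
  have e3 : ∀ (a X : ℕ), {D : 𝓞 K | Algebra.norm ℤ D ≤ X ∧ FamH D ∧ ExtH a D ∧ Tri D}.ncard =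
      {D : Ei | nr D ≤ X ∧ CFam D ∧ ((lam ^ a ∣ D ∧ ¬ lam ^ (a + 1) ∣ D) ∧
        Tri (j D))}.ncard := fun a X =>
    img_ncard j hj X (fun D => CFam D ∧ ((lam ^ a ∣ D ∧ ¬ lam ^ (a + 1) ∣ D) ∧ Tri (j D)))
      (fun D => FamH D ∧ ExtH a D ∧ Tri D)
      fun D => and_congr (famH_iff j D).symm (and_congr (extH_iff j a D).symm Iff.rfl)
  have e4 : ∀ (a X : ℕ), {D : 𝓞 K | Algebra.norm ℤ D ≤ X ∧ FamH D ∧ ExtH a D}.ncard =
      {D : Ei | nr D ≤ X ∧ CFam D ∧ (lam ^ a ∣ D ∧ ¬ lam ^ (a + 1) ∣ D)}.ncard := fun a X =>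
    img_ncard j hj X (fun D => CFam D ∧ (lam ^ a ∣ D ∧ ¬ lam ^ (a + 1) ∣ D))
      (fun D => FamH D ∧ ExtH a D)
      fun D => and_congr (famH_iff j D).symm (extH_iff j a D).symm
  have e5 : ∀ X : ℕ, {D : 𝓞 K | Algebra.norm ℤ D ≤ X ∧ FamH D ∧ ExcH D ∧ Tri D}.ncard =
      {D : Ei | nr D ≤ X ∧ CFam D ∧ (ExcE D ∧ Tri (j D))}.ncard := fun X =>
    img_ncard j hj X (fun D => CFam D ∧ (ExcE D ∧ Tri (j D)))
      (fun D => FamH D ∧ ExcH D ∧ Tri D)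
      fun D => and_congr (famH_iff j D).symm (and_congr (excH_iff j D).symm Iff.rfl)
  have e6 : ∀ X : ℕ, {D : 𝓞 K | Algebra.norm ℤ D ≤ X ∧ FamH D ∧ ExcH D}.ncard =
      {D : Ei | nr D ≤ X ∧ CFam D ∧ ExcE D}.ncard := fun X =>
    img_ncard j hj X (fun D => CFam D ∧ ExcE D) (fun D => FamH D ∧ ExcH D)
      fun D => and_congr (famH_iff j D).symm (excH_iff j D).symm
  have h639 : (0.639 : ℝ) < ∏' i : ℕ, (1 - (1 / 3 : ℝ) ^ (2 * i + 1)) :=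
    Pool.Agent.XLK.t_C9.2.2.2.1
  refine ⟨(finalH K).1, fun D hD => factsAll j hj hD, ?_, ?_, ?_, h639⟩
  · simp only [e1, e2]
    exact lim_allM j hj
  · intro a ha
    simp only [e3, e4]
    exact lim_clsM j hj a ha
  · simp only [e5, e6]
    exact lim_excM j

end Pool.Agent.D0H69.L0F
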