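import Pool.Agent.D0H69.L0F.Cls
import Pool.Agent.D0H69.L0D.Fin

/-!
# The proportion among all cube-free `D`
-/

set_option autoImplicit false
set_option linter.unusedVariables false
set_option linter.unusedSectionVars false

open scoped Classical

namespace Pool.Agent.D0H69.L0F

open NumberField Filter Topology
open Pool.Agent.Y692.QS (Ei w nr toC nr_mul)
open Pool.Agent.Y703.CT
open Pool.Agent.Y703.XK (c9)
open Pool.Agent.Y715.T.Gi (lam prime_lam lam_sq)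
open Pool.Agent.Y696.CTK (Tri ED)
open Pool.Agent.N883.FF (ClP PP FamE NxE fam_data pB card_all den3 PP_top fin_nr fam_iff
  card_ne_one)
open Pool.Agent.D0H10.KH
open Pool.Agent.D0H69.L0

/-- the exceptional class -/
lemma exc_set (P : Ei → Prop) (X : ℕ) : {z : Ei | nr z ≤ X ∧ FamE z ∧ (¬ NxE z ∧ P z)} =
    {z : Ei | nr z ≤ X ∧ ClP z ∧ (9 : ℤ) ∣ nr z - 1 ∧ (z ≠ 1 ∧ P z)} := by
  have h0 : ∀ z : Ei, w ^ (0 : ZMod 3).val * z = z := fun z => by
    rw [ZMod.val_zero, pow_zero, one_mul]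
  ext z
  constructor
  · rintro ⟨h1, h2, h3, h4⟩
    unfold NxE at h3
    rw [not_not] at h3
    have h5 := fam_iff 0 z h3.1
    rw [h0] at h5
    exact ⟨h1, (h5.1 h2).1, h3.2, (h5.1 h2).2, h4⟩
  · rintro ⟨h1, h2, h3, h4, h5⟩
    have h6 := fam_iff 0 z h2.1
    rw [h0] at h6
    refine ⟨h1, h6.2 ⟨h2, h4⟩, ?_, h5⟩
    unfold NxE
    rw [not_not]
    exact ⟨h2.1, h3⟩

/-- the number of the elements of the class, with `1` -/
noncomputable def BB (X : ℕ) : ℕ := {D : Ei | nr D ≤ X ∧ ClP D ∧ (9 : ℤ) ∣ nr D - 1}.ncard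

lemma bb_ratio : Tendsto (fun X : ℕ => (BB X : ℝ) / (PP X : ℝ)) atTop (𝓝 (1 / 3)) := den3.2

lemma bb_ev : ∀ᶠ X : ℕ in atTop, (BB X : ℝ) ≠ 0 := by
  filter_upwards [bb_ratio.eventually_ne (show (1 / 3 : ℝ) ≠ 0 by norm_num)] with X hX
  exact fun h => hX (by rw [h, zero_div])

lemma bb_top : Tendsto (fun X : ℕ => (BB X : ℝ)) atTop atTop := by
  have h1 := bb_ratio.pos_mul_atTop (by norm_num) (PP_top den3)
  refine h1.congr' ?_
  filter_upwards [(PP_top den3).eventually_gt_atTop 0] with X hX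
  exact div_mul_cancel₀ _ (ne_of_gt hX)

section
variable {K : Type} [Field K] [NumberField K] (j : Ei ≃+* 𝓞 K)

/-- among the elements of the class -/
lemma lim_exc0 : Tendsto (fun X : ℕ => ({z : Ei | nr z ≤ X ∧ FamE z ∧
    (¬ NxE z ∧ Tri (j (sg true * (lam ^ 0 * z))))}.ncard : ℝ) / (BB X : ℝ)) atTop (𝓝 c9) := by
  simp only [exc_set]
  refine Pool.Agent.D0H69.L0D.denm (fun z => z ≠ 1 ∧ Tri (j (sg true * (lam ^ 0 * z)))) ?_
  intro n π e hdt hn
  have hne : pD π e ≠ 1 := by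
    intro h
    have := Pool.Agent.R419.CE.nunit hdt
    rw [h] at this
    exact this isUnit_one
  rw [and_iff_right hne, ← triM j hdt hn true, e0]

/-- the class as a part of the family -/
lemma lim_exc : Tendsto (fun X : ℕ => ({z : Ei | nr z ≤ X ∧ FamE z ∧
    (¬ NxE z ∧ Tri (j (sg true * (lam ^ 0 * z))))}.ncard : ℝ) / (FC X : ℝ)) atTop
      (𝓝 (c9 / 9)) := by
  have h0 : Tendsto (fun X => 1 / (PP X : ℝ)) atTop (𝓝 0) := by
    simp only [one_div]
    exact tendsto_inv_atTop_zero.comp (PP_top den3)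
  have h1 := ((lim_exc0 j).mul bb_ratio).div
    ((tendsto_const_nhds (x := (1 : ℝ))).sub h0 |>.const_mul 3) (by norm_num)
  have e1 : c9 * (1 / 3) / (3 * (1 - 0)) = c9 / 9 := by ring
  rw [e1] at h1
  refine h1.congr' ?_
  filter_upwards [(PP_top den3).eventually_gt_atTop 1, eventually_ge_atTop 1, bb_ev]
    with X hX hX1 hB
  have h2 : (PP X : ℝ) ≠ 0 := by linarith
  have h3 : (PP X : ℝ) - 1 ≠ 0 := by linarith
  have h4 : 1 - 1 / (PP X : ℝ) ≠ 0 := by
    rw [Ne, sub_eq_zero, eq_div_iff h2]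
    intro h
    apply h3
    linarith
  simp only [Pi.div_apply]
  rw [fc_eq hX1]
  field_simp

/-- the class of the `D` prime to three -/
lemma lim0M [IsCyclotomicExtension {3} ℚ K] (hj : ∀ z : Ei, Algebra.norm ℤ (j z) = nr z) :
    Tendsto (fun X : ℕ => ({z : Ei | nr z ≤ X ∧ FamE z ∧
      Tri (j (sg true * (lam ^ 0 * z)))}.ncard : ℝ) / (FC X : ℝ)) atTop (𝓝 c9) := by
  have h := (lim0 j hj).add (lim_exc j)
  have e : (8 / 9 * c9 + c9 / 9 : ℝ) = c9 := by ring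
  rw [e] at h
  refine h.congr fun X => ?_
  rw [← add_div]
  congr 1
  have h1 : {z : Ei | nr z ≤ X ∧ FamE z ∧ Tri (j (sg true * (lam ^ 0 * z)))} =
      {z : Ei | nr z ≤ X ∧ FamE z ∧ SS j 0 z} ∪
        {z : Ei | nr z ≤ X ∧ FamE z ∧ (¬ NxE z ∧ Tri (j (sg true * (lam ^ 0 * z))))} := by
    ext z
    unfold SS
    constructor
    · rintro ⟨a, b, c⟩
      by_cases h : NxE z
      · exact Or.inl ⟨a, b, fun _ => h, c⟩
      · exact Or.inr ⟨a, b, h, c⟩
    · rintro (⟨a, b, -, c⟩ | ⟨a, b, -, c⟩)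
      · exact ⟨a, b, c⟩
      · exact ⟨a, b, c⟩
  have h2 : Disjoint {z : Ei | nr z ≤ X ∧ FamE z ∧ SS j 0 z}
      {z : Ei | nr z ≤ X ∧ FamE z ∧ (¬ NxE z ∧ Tri (j (sg true * (lam ^ 0 * z))))} := by
    rw [Set.disjoint_left]
    rintro z ⟨-, -, h3, -⟩ ⟨-, -, h4, -⟩
    exact h4 (h3 rfl)
  rw [h1, Set.ncard_union_eq h2 ((fin_nr X).subset fun z hz => hz.1)
    ((fin_nr X).subset fun z hz => hz.1)]
  push_cast
  rfl

/-- the property in the three classes -/
def S3 (a : ℕ) (z : Ei) : Prop := Tri (j (sg true * (lam ^ a * z)))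

lemma lim1M : Tendsto (fun X : ℕ => ({z : Ei | nr z ≤ X ∧ FamE z ∧ S3 j 1 z}.ncard : ℝ) /
    (FC X : ℝ)) atTop (𝓝 c9) :=
  Pool.Agent.D0H10.L9D.denkn_fam (S3 j 1) fun i n π e hdt => tri9 j hdt i true

lemma lim2M : Tendsto (fun X : ℕ => ({z : Ei | nr z ≤ X ∧ FamE z ∧ S3 j 2 z}.ncard : ℝ) /
    (FC X : ℝ)) atTop (𝓝 c9) :=
  Pool.Agent.D0H69.L3K.denk_fam (S3 j 2) fun i n π e hdt => tri3 j hdt i true

/-- **The proportion among all cube-free elements.** -/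
theorem lim_allM [IsCyclotomicExtension {3} ℚ K] (hj : ∀ z : Ei, Algebra.norm ℤ (j z) = nr z) :
    Tendsto (fun X : ℕ => ({D : Ei | nr D ≤ X ∧ CFam D ∧ Tri (j D)}.ncard : ℝ) /
        ({D : Ei | nr D ≤ X ∧ CFam D}.ncard : ℝ)) atTop (𝓝 c9) := by
  have h := lim3 (lim0M j hj) (lim1M j) (lim2M j)
  have e : (c9 + c9 / 3 + c9 / 9) / (13 / 9) = c9 := by ring
  rw [e] at h
  refine h.congr fun X => ?_
  rw [card_cfam, count' (fun D => Tri (j D)) (S3 j) (fun b a z ha hz => tri_sg j b a z ha hz) X]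
  rfl

/-- the exceptional class -/
theorem lim_excM : Tendsto (fun X : ℕ =>
      ({D : Ei | nr D ≤ X ∧ CFam D ∧ (ExcE D ∧ Tri (j D))}.ncard : ℝ) /
        ({D : Ei | nr D ≤ X ∧ CFam D ∧ ExcE D}.ncard : ℝ)) atTop (𝓝 c9) := by
  have hex : ∀ (b : Bool) (a : ℕ) (z : Ei), FamE z →
      (ExcE (sg b * (lam ^ a * z)) ↔ a = 0 ∧ ¬ NxE z) := by
    intro b a z hz
    by_cases ha : a = 0
    · subst ha
      rw [exc_iff hz b]
      exact ⟨fun h => ⟨rfl, h⟩, fun h => h.2⟩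
    · exact ⟨fun h => absurd h (exc_no b ha z), fun h => absurd h.1 ha⟩
  have hc := count' (fun D => ExcE D) (fun a z => a = 0 ∧ ¬ NxE z)
    (fun b a z _ hz => hex b a z hz)
  have hn := count' (fun D => ExcE D ∧ Tri (j D)) (fun a z => a = 0 ∧ (¬ NxE z ∧ S3 j a z))
    (fun b a z ha hz => by
      rw [hex b a z hz, tri_sg j b a z ha hz, and_assoc]
      rfl)
  simp only [hc, hn, true_and]
  have h0 : Tendsto (fun X => 1 / (BB X : ℝ)) atTop (𝓝 0) := by
    simp only [one_div]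
    exact tendsto_inv_atTop_zero.comp bb_top
  have h1 := (lim_exc0 j).div ((tendsto_const_nhds (x := (1 : ℝ))).sub h0) (by norm_num)
  have e1 : c9 / (1 - 0) = c9 := by rw [sub_zero, div_one]
  rw [e1] at h1
  refine h1.congr' ?_
  filter_upwards [bb_top.eventually_gt_atTop 1, eventually_ge_atTop 1] with X hX hX1
  have h2 : {z : Ei | nr z ≤ (X : ℤ) ∧ FamE z ∧ ¬ NxE z}.ncard + 1 = BB X := by
    have h3 := exc_set (fun _ => True) X
    simp only [and_true] at h3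
    rw [h3]
    have h5 : {D : Ei | nr D ≤ X ∧ ClP D ∧ (9 : ℤ) ∣ nr D - 1} =
        insert 1 {z : Ei | nr z ≤ X ∧ ClP z ∧ (9 : ℤ) ∣ nr z - 1 ∧ z ≠ 1} := by
      ext z
      simp only [Set.mem_ofPred_eq, Set.mem_insert_iff]
      constructor
      · rintro ⟨a, b, c⟩
        by_cases hz : z = 1
        · exact Or.inl hz
        · exact Or.inr ⟨a, b, c, hz⟩
      · rintro (rfl | ⟨a, b, c, d⟩)
        · have h6 := Pool.Agent.N883.FF.one_mem X hX1
          refine ⟨h6.1, h6.2, ?_⟩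
          have : nr (1 : Ei) = 1 := by decide
          rw [this, sub_self]
          exact dvd_zero _
        · exact ⟨a, b, c⟩
    have hf : {z : Ei | nr z ≤ X ∧ ClP z ∧ (9 : ℤ) ∣ nr z - 1 ∧ z ≠ 1}.Finite :=
      (fin_nr X).subset fun z hz => hz.1
    unfold BB
    rw [h5, Set.ncard_insert_of_notMem (fun h => h.2.2.2 rfl) hf]
  have h6 : ({z : Ei | nr z ≤ (X : ℤ) ∧ FamE z ∧ ¬ NxE z}.ncard : ℝ) =
      (BB X : ℝ) - 1 := by
    rw [← h2]
    push_cast
    ring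
  have h7 : ∀ (n : ℕ), n ≠ 0 → ∀ (Y : ℤ) (P : Ei → Prop),
      {z : Ei | nr z ≤ Y ∧ FamE z ∧ (n = 0 ∧ P z)} = ∅ := by
    intro n hn Y P
    ext z
    simp only [Set.mem_ofPred_eq, Set.mem_empty_iff_false, iff_false]
    exact fun h => hn h.2.2.1
  have k1 := h7 1 one_ne_zero ((X / 3 : ℕ) : ℤ) (fun z => ¬ NxE z ∧ S3 j 1 z)
  have k2 := h7 2 two_ne_zero ((X / 3 / 3 : ℕ) : ℤ) (fun z => ¬ NxE z ∧ S3 j 2 z)
  have k3 := h7 1 one_ne_zero ((X / 3 : ℕ) : ℤ) (fun z => ¬ NxE z)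
  have k4 := h7 2 two_ne_zero ((X / 3 / 3 : ℕ) : ℤ) (fun z => ¬ NxE z)
  rw [k1, k2, k3, k4, Set.ncard_empty, add_zero, add_zero, add_zero, add_zero, Nat.cast_mul,
    Nat.cast_mul, mul_div_mul_left _ _ (show ((2 : ℕ) : ℝ) ≠ 0 by norm_num), h6]
  have h8 : {z : Ei | nr z ≤ (X : ℤ) ∧ FamE z ∧ (¬ NxE z ∧ S3 j 0 z)} =
      {z : Ei | nr z ≤ X ∧ FamE z ∧ (¬ NxE z ∧ Tri (j (sg true * (lam ^ 0 * z))))} := rfl
  rw [h8]
  have h9 : (BB X : ℝ) ≠ 0 := by linarith
  have h10 : (BB X : ℝ) - 1 ≠ 0 := by linarith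
  have h11 : 1 - 1 / (BB X : ℝ) ≠ 0 := by
    rw [Ne, sub_eq_zero, eq_div_iff h9]
    intro h
    apply h10
    linarith
  simp only [Pi.div_apply]
  field_simp

/-- the classes of the `D` divisible exactly `a` times by `√-3` -/
theorem lim_clsM [IsCyclotomicExtension {3} ℚ K] (hj : ∀ z : Ei, Algebra.norm ℤ (j z) = nr z)
    (a : ℕ) (ha : a < 3) : Tendsto (fun X : ℕ =>
      ({D : Ei | nr D ≤ X ∧ CFam D ∧ ((lam ^ a ∣ D ∧ ¬ lam ^ (a + 1) ∣ D) ∧ Tri (j D))}.ncard : ℝ) /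
        ({D : Ei | nr D ≤ X ∧ CFam D ∧ (lam ^ a ∣ D ∧ ¬ lam ^ (a + 1) ∣ D)}.ncard : ℝ)) atTop
          (𝓝 c9) := by
  have hex : ∀ (b : Bool) (a' : ℕ) (z : Ei), FamE z →
      ((lam ^ a ∣ sg b * (lam ^ a' * z) ∧ ¬ lam ^ (a + 1) ∣ sg b * (lam ^ a' * z)) ↔ a' = a) := by
    intro b a' z hz
    have hl := fam_lam hz
    have key : ∀ m : ℕ, lam ^ m ∣ sg b * (lam ^ a' * z) ↔ m ≤ a' := by
      intro m
      rw [(sg_unit b).dvd_mul_left]
      constructor
      · intro h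
        by_contra hlt
        push Not at hlt
        obtain ⟨c, rfl⟩ : ∃ c, m = a' + (c + 1) := ⟨m - a' - 1, by omega⟩
        rw [pow_add] at h
        have h5 := (mul_dvd_mul_iff_left (pow_ne_zero a' prime_lam.ne_zero)).1 h
        exact hl ((dvd_pow_self lam (Nat.succ_ne_zero c)).trans h5)
      · exact fun h => (pow_dvd_pow lam h).mul_right _
    rw [key, key]
    omega
  have hc := count' (fun D => (lam ^ a ∣ D ∧ ¬ lam ^ (a + 1) ∣ D)) (fun a' _ => a' = a)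
    (fun b a' z _ hz => hex b a' z hz)
  have hn := count' (fun D => (lam ^ a ∣ D ∧ ¬ lam ^ (a + 1) ∣ D) ∧ Tri (j D))
    (fun a' z => a' = a ∧ S3 j a' z) (fun b a' z ha' hz => by
      rw [hex b a' z hz]
      exact and_congr_right fun h => tri_sg j b a' z ha' hz)
  simp only [hc, hn]
  interval_cases a
  · refine (lim0M j hj).congr fun X => ?_
    simp only [false_and, and_false, true_and,
      Set.ofPred_false, Set.ncard_empty, zero_add, add_zero, and_true, OfNat.ofNat_ne_zero,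
      one_ne_zero]
    push_cast
    rw [mul_div_mul_left _ _ (two_ne_zero)]
    rfl
  · refine ((lim1M j).comp div3_top).congr fun X => ?_
    simp only [Function.comp_apply, false_and, and_false, true_and,
      Set.ofPred_false, Set.ncard_empty, zero_add, add_zero, and_true, OfNat.ofNat_ne_one,
      zero_ne_one]
    push_cast
    rw [mul_div_mul_left _ _ (two_ne_zero)]
    rfl
  · refine (((lim2M j).comp div3_top).comp div3_top).congr fun X => ?_
    simp only [Function.comp_apply, false_and, and_false, true_and,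
      Set.ofPred_false, Set.ncard_empty, zero_add, add_zero, and_true,
      OfNat.zero_ne_ofNat, OfNat.one_ne_ofNat]
    push_cast
    rw [mul_div_mul_left _ _ (two_ne_zero)]
    rfl

end

end Pool.Agent.D0H69.L0F
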