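import Pool.Agent.D0H10.KH.Lim
import Pool.Agent.D0H15.L0.Fin
import Pool.Agent.D0H42.L0.SelcM
import Pool.Agent.D0H92.L0.Loc3M
import Pool.Agent.D0H2.L0.Wpd
import Pool.Agent.D0H2.L0.Cmb
import Pool.Agent.D0H69.L0.Anm

/-!
# Project L0: the curves `y² + D y = x³` for `D = ± ∏ π_j ^ (e j)` of norm `1` modulo `9`
-/

set_option autoImplicit false
set_option linter.unusedVariables false
set_option linter.unusedSectionVars false

namespace Pool.Agent.D0H69.L0F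

open NumberField IsDedekindDomain WeierstrassCurve
open Pool.Agent.Y703.CT
open Pool.Agent.Y696 Pool.Agent.Y696.CT
open Pool.Agent.Y696.CTK
open Pool.Agent.Y696.XK (RkZ)
open Pool.Agent.Y692.QS hiding chi
open Pool.Agent.Y715.T.RecG (Pq)
open Pool.Agent.N883.FF (FamE fam_data NxE pB nq IsHLB)
open Pool.Agent.Y715.T.Gi (lam prime_lam lam_sq QB GK ev ev_ne gk_ev Kc)
open Pool.Agent.D0H10.KH
open Pool.Agent.D0H69.L0
open scoped Classical

section
variable {K : Type} [Field K] [NumberField K] (j : Ei ≃+* 𝓞 K)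
variable {J : Type} [Fintype J] {π : J → Ei} {e : J → ZMod 3}

lemma e0 (π : J → Ei) (e : J → ZMod 3) : w ^ (0 : ZMod 3).val * pD π e = pD π e := by
  rw [ZMod.val_zero, pow_zero, one_mul]

/-- the criterion -/
theorem triM [Nonempty J] (hdt : Dt π e) (hn : Ntl π e) (b : Bool) :
    Tri (j (sg b * (lam ^ 0 * (w ^ (0 : ZMod 3).val * pD π e)))) ↔ KerM π e := by
  refine tri_gen j (sg_unit b).ne_zero ((e1 hdt 0 b).trans (e0 π e)) (ne_D hdt 0 b 0) _ ?_ ?_ ?_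
  · exact fun i₀ hi u a hT => Pool.Agent.Y703.CT.a_ne hdt hT
  · exact fun hk i₀ hi u a hT => Pool.Agent.D0H15.L0.sel Pool.Agent.D0H92.L0.loc3m
      Pool.Agent.N883.FF.ram Pool.Agent.N883.FF.unr J π e hdt hn hk i₀ hi u a hT
  · intro i₀ hi u a hT hS
    by_contra hk
    exact Pool.Agent.D0H42.L0.selcM Pool.Agent.Y319.CT.t_FF Pool.Agent.Y379.CT.t_CUB
      Pool.Agent.D0H42.L0.cub3M Pool.Agent.Y674.CT.t_PT Pool.Agent.D0H42.L0.ramcM J π e hdt hn hk
      i₀ hi u a hT hS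

lemma isHLB_zero {F : ℂ → ℂ} (hF : IsHL π (fun k => -e k) F) :
    IsHLB π (fun k => -e k) (-0) F := by
  refine ⟨hF.1, fun s hs => (hF.2 s hs).congr_fun fun α => ?_⟩
  have h1 : (-0 * nq (α : Ei) : ZMod 3) = 0 := by rw [neg_zero, zero_mul]
  rw [h1, ZMod.val_zero, pow_zero, mul_one]

/-- the `L`-function -/
theorem lkM (hdt : Dt π e) {F : ℂ → ℂ} (hF : IsHL π (fun k => -e k) F) {s : ℂ}
    (hs : 3 / 2 < s.re) :
    LSeriesSummable ((fun n : ℤ => (n : ℂ)) ∘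
      (ED (j (w ^ (0 : ZMod 3).val * pD π e) : K)).LFunction) s ∧
    F s * (starRingEnd ℂ) (F ((starRingEnd ℂ) s)) =
      (ED (j (w ^ (0 : ZMod 3).val * pD π e) : K)).LSeries s :=
  Pool.Agent.N883.FF.lk Pool.Agent.Y350.CT.rec K j J π e 0 hdt F (isHLB_zero hF) s hs

/-- the facts -/
theorem factsM [Nonempty J] (hdt : Dt π e) (hn : Ntl π e) (b : Bool) :
    FactsH (K := K) (j (sg b * (lam ^ 0 * (w ^ (0 : ZMod 3).val * pD π e)))) := by
  by_cases hk : KerM π e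
  · obtain ⟨F, hF, hF1, -⟩ := anm_of Pool.Agent.D0H2.L0.wpd Pool.Agent.D0H2.L0.cmb J π e hdt hn hk
    exact facts_of j (ne_D hdt 0 b 0) (lf0 j hdt 0 b) (diff_conj hF.1)
      (fun s hs => lkM j hdt hF hs) (triM j hdt hn b) (fun _ => conj_ne hF1)
  · obtain ⟨F, hF, -⟩ := Pool.Agent.Y715.CT.AN1b.an1b J π (fun k => -e k) hdt.neg
    exact facts_of j (ne_D hdt 0 b 0) (lf0 j hdt 0 b) (diff_conj hF.1)
      (fun s hs => lkM j hdt hF hs) (triM j hdt hn b) (fun h => absurd h hk)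

/-- the norm -/
theorem ntl_iff (hdt : Dt π e) : (9 : ℤ) ∣ nr (pD π e) - 1 ↔ Ntl π e := by
  refine ⟨fun h => ?_, fun h => Pool.Agent.D0H15.L0.nr_nine hdt h⟩
  have h1 : (3 : Ei) ∣ pD π e - 1 := (Pool.Agent.Y703.CT.pD_prim hdt).1
  have h2 := (Pool.Agent.N883.FF.Den3.nq_zero h1).2 h
  rw [pD, Pool.Agent.D0H15.L9.Sel.nq_prod hdt] at h2
  unfold Ntl
  rw [← h2]
  refine Finset.sum_congr rfl fun k _ => ?_
  rw [ZMod.natCast_zmod_val]

lemma exc_data (hdt : Dt π e) {i : ZMod 3} (h : ¬ NxE (w ^ i.val * pD π e)) :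
    i = 0 ∧ Ntl π e := by
  unfold NxE at h
  rw [not_not] at h
  have h1 : (3 : Ei) ∣ pD π e - 1 := (Pool.Agent.Y703.CT.pD_prim hdt).1
  have h2 : (3 : Ei) ∣ w ^ i.val * pD π e - w ^ (0 : ZMod 3).val := by
    rw [ZMod.val_zero, pow_zero]
    exact h.1
  have hi : i = 0 := (Pool.Agent.N883.FF.three_dvd_w h1 0).1 h2
  refine ⟨hi, ?_⟩
  rw [hi, e0] at h
  exact (ntl_iff hdt).1 h.2

/-- the sign -/
lemma tri_sg (b : Bool) (a : ℕ) (z : Ei) (ha : a < 3) (hz : FamE z) :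
    Tri (j (sg b * (lam ^ a * z))) ↔ Tri (j (sg true * (lam ^ a * z))) := by
  obtain ⟨i, n, π, e, hdt, rfl⟩ := fam_data hz
  have hpB : pB π e i = w ^ i.val * pD π e := rfl
  rw [hpB] at hz ⊢
  interval_cases a
  · by_cases h : NxE (w ^ i.val * pD π e)
    · have h9 := nx_i hdt h
      rw [tri0 j hdt i h9 b, tri0 j hdt i h9 true]
    · obtain ⟨rfl, hn⟩ := exc_data hdt h
      rw [triM j hdt hn b, triM j hdt hn true]
  · rw [tri9 j hdt i b, tri9 j hdt i true]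
  · rw [tri3 j hdt i b, tri3 j hdt i true]

end

end Pool.Agent.D0H69.L0F
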